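import Pool.Agent.Helper71.P4.St
import Pool.Agent.Helper69.CR.M_A2

/-!
# MP_3dd6d4_an, project P4: generic checker for the tables (`Tab`)

A certificate is a list of cells `(t_{j}, t_{j+1}]` of `(0,1]` (only the right end is stored) with, for every
`k`, a polynomial `σ_k` (list of rational coefficients); `ρ_k(x) = x σ_k(x)` on the cell.
-/

set_option autoImplicit false

open MeasureTheory Set

noncomputable section

namespace Helper53.P4T

open Helper69.CR Helper71.P4

/-- evaluation of a polynomial given by its list of coefficients. -/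
def ev : List ℚ → ℝ → ℝ
  | [], _ => 0
  | a :: l, x => (a : ℝ) + x * ev l x

/-- sum of two polynomials. -/
def addL : List ℚ → List ℚ → List ℚ
  | [], m => m
  | a :: l, [] => a :: l
  | a :: l, b :: m => (a + b) :: addL l m

/-- multiple of a polynomial. -/
def sm (q : ℚ) (l : List ℚ) : List ℚ := l.map (q * ·)

/-- homogeneous evaluation `Σ c_i u^i v^{d-i}`. -/
def eh : List ℚ → ℝ → ℝ → ℝ
  | [], _, _ => 0
  | a :: l, u, v => (a : ℝ) * v ^ l.length + u * eh l u v

/-- product with `p v + q u`. -/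
def mulLin (p q : ℚ) (c : List ℚ) : List ℚ := addL (sm p c ++ [0]) (0 :: sm q c)

/-- `(u+v)^d`. -/
def pw : ℕ → List ℚ
  | 0 => [1]
  | d + 1 => mulLin 1 1 (pw d)

/-- homogenisation on the cell `[lo,hi]`. -/
def hom (lo hi : ℚ) : List ℚ → List ℚ
  | [] => []
  | a :: l => addL (sm a (pw l.length)) (mulLin lo hi (hom lo hi l))

/-- all entries nonnegative. -/
def nn (c : List ℚ) : Bool := c.all (fun a => decide (0 ≤ a))

/-- Bernstein positivity on a cell. -/
def posOn (lo hi : ℚ) (l : List ℚ) : Bool := nn (hom lo hi l)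

theorem ev_addL (l : List ℚ) : ∀ (m : List ℚ) (x : ℝ), ev (addL l m) x = ev l x + ev m x := by
  induction l with
  | nil => intro m x; simp [addL, ev]
  | cons a l ih =>
    intro m x
    cases m with
    | nil => simp [addL, ev]
    | cons b m =>
      simp only [addL, ev, ih]
      push_cast
      ring

theorem ev_sm (q : ℚ) (l : List ℚ) (x : ℝ) : ev (sm q l) x = q * ev l x := by
  induction l with
  | nil => simp [sm, ev]
  | cons a l ih =>
    have : sm q (a :: l) = (q * a) :: sm q l := rfl
    rw [this]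
    simp only [ev, ih]
    push_cast
    ring

theorem length_sm (q : ℚ) (l : List ℚ) : (sm q l).length = l.length := by
  simp [sm]

theorem length_addL (l : List ℚ) : ∀ m : List ℚ, l.length = m.length → (addL l m).length = l.length := by
  induction l with
  | nil =>
    intro m h
    simp only [addL]
    exact h.symm
  | cons a l ih =>
    intro m h
    cases m with
    | nil => simp [addL]
    | cons b m =>
      simp only [addL, List.length_cons] at h ⊢
      rw [ih m (by omega)]

theorem eh_append (c : List ℚ) (u v : ℝ) : eh (c ++ [0]) u v = v * eh c u v := by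
  induction c with
  | nil => simp [eh]
  | cons a c ih =>
    simp only [List.cons_append, eh, ih, List.length_append, List.length_cons, List.length_nil]
    ring

theorem eh_sm (q : ℚ) (c : List ℚ) (u v : ℝ) : eh (sm q c) u v = q * eh c u v := by
  induction c with
  | nil => simp [eh, sm]
  | cons a c ih =>
    have : sm q (a :: c) = (q * a) :: sm q c := rfl
    rw [this]
    simp only [eh, ih, length_sm]
    push_cast
    ring

theorem eh_addL (l : List ℚ) : ∀ m : List ℚ, l.length = m.length → ∀ u v : ℝ,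
    eh (addL l m) u v = eh l u v + eh m u v := by
  induction l with
  | nil =>
    intro m h u v
    have : m = [] := List.length_eq_zero_iff.1 h.symm
    subst this
    simp [addL, eh]
  | cons a l ih =>
    intro m h u v
    cases m with
    | nil => simp at h
    | cons b m =>
      simp only [List.length_cons] at h
      have h' : l.length = m.length := by omega
      simp only [addL, eh, ih m h', length_addL l m h', h']
      push_cast
      ring

theorem length_mulLin (p q : ℚ) (c : List ℚ) : (mulLin p q c).length = c.length + 1 := by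
  unfold mulLin
  rw [length_addL]
  · simp [length_sm]
  · simp [length_sm]

theorem eh_mulLin (p q : ℚ) (c : List ℚ) (u v : ℝ) :
    eh (mulLin p q c) u v = (p * v + q * u) * eh c u v := by
  unfold mulLin
  rw [eh_addL _ _ (by simp [length_sm]), eh_append, eh_sm]
  simp only [eh, eh_sm]
  push_cast
  ring

theorem length_pw (d : ℕ) : (pw d).length = d + 1 := by
  induction d with
  | zero => rfl
  | succ d ih => simp only [pw, length_mulLin, ih]

theorem eh_pw (d : ℕ) (u v : ℝ) : eh (pw d) u v = (u + v) ^ d := by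
  induction d with
  | zero => simp [pw, eh]
  | succ d ih =>
    simp only [pw, eh_mulLin, ih]
    push_cast
    ring

theorem length_hom (lo hi : ℚ) (l : List ℚ) : (hom lo hi l).length = l.length := by
  induction l with
  | nil => rfl
  | cons a l ih =>
    simp only [hom, List.length_cons]
    rw [length_addL _ _ (by rw [length_sm, length_pw, length_mulLin, ih]), length_sm, length_pw]

theorem eh_hom (lo hi : ℚ) (l : List ℚ) (x : ℝ) :
    ((hi : ℝ) - lo) * eh (hom lo hi l) (x - lo) (hi - x) = ((hi : ℝ) - lo) ^ l.length * ev l x := by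
  induction l with
  | nil => simp [hom, eh, ev]
  | cons a l ih =>
    simp only [hom, List.length_cons, ev]
    rw [eh_addL _ _ (by rw [length_sm, length_pw, length_mulLin, length_hom]), eh_sm, eh_pw, eh_mulLin]
    have h1 : (x - (lo : ℝ)) + ((hi : ℝ) - x) = (hi : ℝ) - lo := by ring
    have h2 : (lo : ℝ) * ((hi : ℝ) - x) + hi * (x - lo) = x * ((hi : ℝ) - lo) := by ring
    rw [h1, h2]
    calc ((hi : ℝ) - lo) * (a * ((hi : ℝ) - lo) ^ l.length +
          x * ((hi : ℝ) - lo) * eh (hom lo hi l) (x - lo) (hi - x))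
        = a * ((hi : ℝ) - lo) ^ (l.length + 1) +
          x * ((hi : ℝ) - lo) * (((hi : ℝ) - lo) * eh (hom lo hi l) (x - lo) (hi - x)) := by ring
      _ = _ := by rw [ih]; ring

theorem eh_nonneg (c : List ℚ) (h : nn c = true) (u v : ℝ) (hu : 0 ≤ u) (hv : 0 ≤ v) :
    0 ≤ eh c u v := by
  induction c with
  | nil => simp [eh]
  | cons a c ih =>
    simp only [nn, List.all_cons, Bool.and_eq_true, decide_eq_true_eq] at h
    have ha : (0 : ℝ) ≤ (a : ℝ) := by exact_mod_cast h.1
    simp only [eh]
    have := ih (by simpa [nn] using h.2)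
    positivity

theorem ev_nonneg (lo hi : ℚ) (l : List ℚ) (hlt : lo < hi) (h : posOn lo hi l = true) (x : ℝ)
    (h1 : (lo : ℝ) ≤ x) (h2 : x ≤ hi) : 0 ≤ ev l x := by
  have hw : (0 : ℝ) < (hi : ℝ) - lo := by
    have : (lo : ℝ) < hi := by exact_mod_cast hlt
    linarith
  have h3 := eh_nonneg _ h (x - lo) (hi - x) (by linarith) (by linarith)
  have h4 := eh_hom lo hi l x
  have h5 : 0 ≤ ((hi : ℝ) - lo) ^ l.length * ev l x := by
    rw [← h4]
    exact mul_nonneg hw.le h3
  by_contra hneg
  have h6 : ((hi : ℝ) - lo) ^ l.length * ev l x < 0 :=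
    mul_neg_of_pos_of_neg (pow_pos hw _) (not_le.1 hneg)
  linarith

/-! ### certificates -/

/-- a cell: right end and the polynomials `σ_k`. -/
structure Cell where
  hi : ℚ
  s : List (List ℚ)

/-- `c_k` on a cell. -/
def cpoly (N s : List (List ℚ)) (k : ℕ) : List ℚ :=
  addL (N.getD k []) (0 :: addL (sm ((4 * (k : ℚ) ^ 2 - 2) / (4 * (k : ℚ) ^ 2 - 1)) (s.getD k []))
    (addL (sm (-(((k : ℚ) + 1) / (2 * k + 1))) (s.getD (k + 1) []))
      (sm (-(((k : ℚ) - 1) / (2 * k - 1))) (s.getD (k - 1) []))))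

/-- the check of one cell. -/
def chkCell (N : List (List ℚ)) (n : ℕ) (lo : ℚ) (c : Cell) : Bool :=
  decide (lo < c.hi) && decide (c.s.length ≤ 2 * n - 1) &&
    (decide (c.s.getD 0 [] = []) && decide (c.s.getD 1 [] = [])) &&
    ((List.range (2 * n)).all (fun k => posOn lo c.hi (c.s.getD k [])) &&
      (List.range (2 * n - 1)).all (fun k => posOn lo c.hi (cpoly N c.s (k + 1))))

/-- the check of a list of cells from `lo` to `1`. -/
def chkAll (N : List (List ℚ)) (n : ℕ) : ℚ → List Cell → Bool
  | lo, [] => decide (lo = 1)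
  | lo, c :: cs => chkCell N n lo c && chkAll N n c.hi cs

/-- the functions `σ_k`. -/
def sg : List Cell → ℕ → ℝ → ℝ
  | [], _, _ => 0
  | c :: cs, k, x => if x ≤ (c.hi : ℝ) then ev (c.s.getD k []) x else sg cs k x

/-- the functions `ρ_k`. -/
def rho (cs : List Cell) (k : ℕ) (x : ℝ) : ℝ := if 0 < x ∧ x < 1 then x * sg cs k x else 0

theorem find (N : List (List ℚ)) (n : ℕ) (cs : List Cell) : ∀ lo : ℚ, chkAll N n lo cs = true →
    ∀ x : ℝ, (lo : ℝ) < x → x ≤ 1 → ∃ (lo' : ℚ) (c : Cell), chkCell N n lo' c = true ∧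
      (lo' : ℝ) < x ∧ x ≤ (c.hi : ℝ) ∧ ∀ k, sg cs k x = ev (c.s.getD k []) x := by
  induction cs with
  | nil =>
    intro lo h x h1 h2
    simp only [chkAll, decide_eq_true_eq] at h
    subst h
    push_cast at h1
    linarith
  | cons c cs ih =>
    intro lo h x h1 h2
    simp only [chkAll, Bool.and_eq_true] at h
    by_cases hx : x ≤ (c.hi : ℝ)
    · refine ⟨lo, c, h.1, h1, hx, fun k => ?_⟩
      simp only [sg]
      rw [if_pos hx]
    · obtain ⟨lo', c', h3, h4, h5, h6⟩ := ih c.hi h.2 x (not_le.1 hx) h2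
      refine ⟨lo', c', h3, h4, h5, fun k => ?_⟩
      simp only [sg]
      rw [if_neg hx]
      exact h6 k

/-! ### measurability, bounds -/

theorem ev_continuous (l : List ℚ) : Continuous (ev l) := by
  induction l with
  | nil => exact continuous_const
  | cons a l ih =>
    have : ev (a :: l) = fun x => (a : ℝ) + x * ev l x := by
      funext x
      rfl
    rw [this]
    exact continuous_const.add (continuous_id.mul ih)

theorem sg_measurable (cs : List Cell) (k : ℕ) : Measurable (sg cs k) := by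
  induction cs with
  | nil => exact measurable_const
  | cons c cs ih =>
    have : sg (c :: cs) k = fun x => if x ≤ (c.hi : ℝ) then ev (c.s.getD k []) x else sg cs k x := by
      funext x
      rfl
    rw [this]
    exact Measurable.ite measurableSet_Iic (ev_continuous _).measurable ih

theorem rho_measurable (cs : List Cell) (k : ℕ) : Measurable (rho cs k) := by
  unfold rho
  exact Measurable.ite measurableSet_Ioo (measurable_id.mul (sg_measurable cs k)) measurable_const

/-- sum of the absolute values of the coefficients. -/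
def ab : List ℚ → ℝ
  | [] => 0
  | a :: l => |(a : ℝ)| + ab l

theorem ab_nonneg (l : List ℚ) : 0 ≤ ab l := by
  induction l with
  | nil => simp [ab]
  | cons a l ih => simp only [ab]; positivity

theorem ev_le_ab (l : List ℚ) (x : ℝ) (h0 : 0 ≤ x) (h1 : x ≤ 1) : |ev l x| ≤ ab l := by
  induction l with
  | nil => simp [ev, ab]
  | cons a l ih =>
    simp only [ev, ab]
    calc |(a : ℝ) + x * ev l x| ≤ |(a : ℝ)| + |x * ev l x| := abs_add_le _ _
      _ ≤ |(a : ℝ)| + ab l := by
        rw [abs_mul, abs_of_nonneg h0]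
        have := abs_nonneg (ev l x)
        nlinarith

/-- bound of a list of polynomials. -/
def abs2 : List (List ℚ) → ℝ
  | [] => 0
  | l :: ls => ab l + abs2 ls

theorem abs2_nonneg (ls : List (List ℚ)) : 0 ≤ abs2 ls := by
  induction ls with
  | nil => simp [abs2]
  | cons a l ih => simp only [abs2]; exact add_nonneg (ab_nonneg _) ih

theorem ab_getD_le (ls : List (List ℚ)) : ∀ k : ℕ, ab (ls.getD k []) ≤ abs2 ls := by
  induction ls with
  | nil => intro k; simp [ab, abs2]
  | cons l ls ih =>
    intro k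
    cases k with
    | zero =>
      simp only [List.getD_cons_zero, abs2]
      have := abs2_nonneg ls
      linarith
    | succ k =>
      simp only [List.getD_cons_succ, abs2]
      have := ab_nonneg l
      have := ih k
      linarith

theorem sg_bdd (cs : List Cell) : ∃ C : ℝ, 0 ≤ C ∧ ∀ k x, 0 ≤ x → x ≤ 1 → |sg cs k x| ≤ C := by
  induction cs with
  | nil => exact ⟨0, le_rfl, fun k x _ _ => by simp [sg]⟩
  | cons c cs ih =>
    obtain ⟨C, hC, h⟩ := ih
    refine ⟨abs2 c.s + C, add_nonneg (abs2_nonneg _) hC, fun k x h0 h1 => ?_⟩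
    simp only [sg]
    split_ifs
    · have h2 := ev_le_ab (c.s.getD k []) x h0 h1
      have h3 := ab_getD_le c.s k
      linarith
    · have h2 := h k x h0 h1
      have h3 := abs2_nonneg c.s
      linarith

/-! ### integrals -/

/-- coefficients of the primitive divided by `x^{j+1}`. -/
def prim : ℕ → List ℚ → List ℚ
  | _, [] => []
  | j, a :: l => a / ((j : ℚ) + 1) :: prim (j + 1) l

theorem prim_deriv (l : List ℚ) : ∀ (j : ℕ) (x : ℝ),
    HasDerivAt (fun y => y ^ (j + 1) * ev (prim j l) y) (x ^ j * ev l x) x := by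
  induction l with
  | nil =>
    intro j x
    simp only [prim, ev, mul_zero]
    exact hasDerivAt_const x 0
  | cons a l ih =>
    intro j x
    have h1 := ih (j + 1) x
    have h2 : HasDerivAt (fun y : ℝ => (a : ℝ) / ((j : ℝ) + 1) * y ^ (j + 1))
        ((a : ℝ) / ((j : ℝ) + 1) * (((j + 1 : ℕ) : ℝ) * x ^ j)) x :=
      (hasDerivAt_pow (j + 1) x).const_mul _
    have h3 := h2.add h1
    have e1 : (fun y : ℝ => y ^ (j + 1) * ev (prim j (a :: l)) y) =
        (fun y : ℝ => (a : ℝ) / ((j : ℝ) + 1) * y ^ (j + 1)) +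
          fun y => y ^ (j + 1 + 1) * ev (prim (j + 1) l) y := by
      funext y
      simp only [prim, ev, Pi.add_apply]
      push_cast
      ring
    rw [e1]
    refine h3.congr_deriv ?_
    have : (j : ℝ) + 1 ≠ 0 := by positivity
    simp only [ev]
    push_cast
    field_simp
    ring

/-- rational evaluation. -/
def evQ : List ℚ → ℚ → ℚ
  | [], _ => 0
  | a :: l, x => a + x * evQ l x

theorem ev_evQ (l : List ℚ) (x : ℚ) : ev l (x : ℝ) = ((evQ l x : ℚ) : ℝ) := by
  induction l with
  | nil => simp [ev, evQ]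
  | cons a l ih =>
    simp only [ev, evQ, ih]
    push_cast
    ring

/-- the integral of a polynomial over a cell. -/
def intL (lo hi : ℚ) (l : List ℚ) : ℚ := hi * evQ (prim 0 l) hi - lo * evQ (prim 0 l) lo

theorem integral_ev (lo hi : ℚ) (l : List ℚ) :
    ∫ x in (lo : ℝ)..hi, ev l x = ((intL lo hi l : ℚ) : ℝ) := by
  have h : ∀ x ∈ Set.uIcc (lo : ℝ) hi, HasDerivAt (fun y => y ^ (0 + 1) * ev (prim 0 l) y) (ev l x) x := by
    intro x _
    have := prim_deriv l 0 x
    simpa using this
  rw [intervalIntegral.integral_eq_sub_of_hasDerivAt h ((ev_continuous l).intervalIntegrable _ _)]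
  simp only [zero_add, pow_one, ev_evQ, intL]
  push_cast
  ring

/-- `Σ_k w_k σ_k`. -/
def comb (w : ℕ → ℚ) : ℕ → List (List ℚ) → List ℚ
  | _, [] => []
  | k, l :: ls => addL (sm (w k) l) (comb w (k + 1) ls)

theorem ev_comb (w : ℕ → ℚ) (ls : List (List ℚ)) : ∀ (k m : ℕ), ls.length ≤ m → ∀ x : ℝ,
    ∑ i ∈ Finset.range m, (w (k + i) : ℝ) * ev (ls.getD i []) x = ev (comb w k ls) x := by
  induction ls with
  | nil =>
    intro k m _ x
    simp [comb, ev]
  | cons l ls ih =>
    intro k m hm x
    obtain ⟨m, rfl⟩ : ∃ m', m = m' + 1 := ⟨m - 1, by simp at hm; omega⟩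
    rw [Finset.sum_range_succ']
    simp only [List.getD_cons_succ, List.getD_cons_zero, add_zero, comb, ev_addL, ev_sm]
    have := ih (k + 1) m (by simp at hm; omega) x
    rw [← this, add_comm]
    congr 1
    refine Finset.sum_congr rfl fun i _ => ?_
    rw [show k + (i + 1) = k + 1 + i by ring]

/-- total integral. -/
def tot (w : ℕ → ℚ) : ℚ → List Cell → ℚ
  | _, [] => 0
  | lo, c :: cs => intL lo c.hi (comb w 0 c.s) + tot w c.hi cs

theorem chk_le_one (N : List (List ℚ)) (n : ℕ) (cs : List Cell) : ∀ lo : ℚ,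
    chkAll N n lo cs = true → lo ≤ 1 := by
  induction cs with
  | nil =>
    intro lo h
    simp only [chkAll, decide_eq_true_eq] at h
    exact h.le
  | cons c cs ih =>
    intro lo h
    simp only [chkAll, Bool.and_eq_true] at h
    have h1 := ih c.hi h.2
    have h2 := h.1
    simp only [chkCell, Bool.and_eq_true, decide_eq_true_eq] at h2
    exact h2.1.1.1.le.trans h1

theorem tot_spec (N : List (List ℚ)) (n : ℕ) (w : ℕ → ℚ) (cs : List Cell) : ∀ lo : ℚ,
    chkAll N n lo cs = true →
    IntegrableOn (fun x => ∑ k ∈ Finset.range (2 * n), (w k : ℝ) * sg cs k x) (Ioc (lo : ℝ) 1) ∧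
      ∫ x in Ioc (lo : ℝ) 1, ∑ k ∈ Finset.range (2 * n), (w k : ℝ) * sg cs k x =
        ((tot w lo cs : ℚ) : ℝ) := by
  induction cs with
  | nil =>
    intro lo h
    simp only [chkAll, decide_eq_true_eq] at h
    subst h
    simp [tot]
  | cons c cs ih =>
    intro lo h
    have hall := h
    simp only [chkAll, Bool.and_eq_true] at h
    obtain ⟨h1, h2⟩ := ih c.hi h.2
    have hc1 := chk_le_one N n cs c.hi h.2
    have hc := h.1
    simp only [chkCell, Bool.and_eq_true, decide_eq_true_eq] at hc
    have hlt : (lo : ℝ) < (c.hi : ℝ) := by exact_mod_cast hc.1.1.1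
    have hle : (c.hi : ℝ) ≤ 1 := by exact_mod_cast hc1
    have hlen : c.s.length ≤ 2 * n := by
      have := hc.1.1.2
      omega
    have hU : Ioc (lo : ℝ) 1 = Ioc (lo : ℝ) c.hi ∪ Ioc (c.hi : ℝ) 1 :=
      (Ioc_union_Ioc_eq_Ioc hlt.le hle).symm
    have hD : Disjoint (Ioc (lo : ℝ) c.hi) (Ioc (c.hi : ℝ) 1) := by
      rw [Set.disjoint_left]
      intro x hx hx'
      exact absurd hx.2 (not_le.2 hx'.1)
    have e1 : ∀ x ∈ Ioc (lo : ℝ) c.hi,
        ∑ k ∈ Finset.range (2 * n), (w k : ℝ) * sg (c :: cs) k x = ev (comb w 0 c.s) x := by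
      intro x hx
      rw [← ev_comb w c.s 0 (2 * n) hlen x]
      refine Finset.sum_congr rfl fun k _ => ?_
      simp only [sg, zero_add]
      rw [if_pos hx.2]
    have e2 : ∀ x ∈ Ioc (c.hi : ℝ) 1,
        ∑ k ∈ Finset.range (2 * n), (w k : ℝ) * sg (c :: cs) k x =
          ∑ k ∈ Finset.range (2 * n), (w k : ℝ) * sg cs k x := by
      intro x hx
      refine Finset.sum_congr rfl fun k _ => ?_
      simp only [sg]
      rw [if_neg (not_le.2 hx.1)]
    have i1 : IntegrableOn (fun x => ∑ k ∈ Finset.range (2 * n), (w k : ℝ) * sg (c :: cs) k x)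
        (Ioc (lo : ℝ) c.hi) := by
      refine IntegrableOn.congr_fun (f := fun x => ev (comb w 0 c.s) x) ?_ (fun x hx => (e1 x hx).symm)
        measurableSet_Ioc
      exact ((ev_continuous _).integrableOn_Icc (a := (lo : ℝ)) (b := c.hi)).mono_set Ioc_subset_Icc_self
    have i2 : IntegrableOn (fun x => ∑ k ∈ Finset.range (2 * n), (w k : ℝ) * sg (c :: cs) k x)
        (Ioc (c.hi : ℝ) 1) :=
      h1.congr_fun (fun x hx => (e2 x hx).symm) measurableSet_Ioc
    refine ⟨?_, ?_⟩
    · rw [hU]
      exact i1.union i2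
    · rw [hU, setIntegral_union hD measurableSet_Ioc i1 i2, setIntegral_congr_fun measurableSet_Ioc e2, h2,
        setIntegral_congr_fun measurableSet_Ioc e1, ← intervalIntegral.integral_of_le hlt.le, integral_ev]
      simp only [tot]
      push_cast
      ring

/-! ### the table -/

theorem rho_div (n : ℕ) (w : ℕ → ℝ) (cs : List Cell) (x : ℝ) (h0 : 0 < x) (h1 : x < 1) :
    (∑ k ∈ Finset.range (2 * n), w k * rho cs k x) / x =
      ∑ k ∈ Finset.range (2 * n), w k * sg cs k x := by
  rw [Finset.sum_div]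
  refine Finset.sum_congr rfl fun k _ => ?_
  unfold rho
  rw [if_pos ⟨h0, h1⟩]
  field_simp

theorem tab_of (n : ℕ) (hn : 1 ≤ n) (N : List (List ℚ)) (cs : List Cell) (ν : ℕ → ℝ → ℝ)
    (hν : ∀ k x, 1 ≤ k → k < 2 * n → ν k x = ev (N.getD k []) x)
    (h : chkAll N n 0 cs = true) :
    Tab n ν (rho cs) ((tot (fun _ => 1) 0 cs : ℚ) : ℝ) ((tot (fun k => (k : ℚ)) 0 cs : ℚ) : ℝ) := by
  have hf : ∀ x : ℝ, 0 < x → x < 1 → ∃ (lo : ℚ) (c : Cell), chkCell N n lo c = true ∧
      (lo : ℝ) < x ∧ x ≤ (c.hi : ℝ) ∧ ∀ k, sg cs k x = ev (c.s.getD k []) x :=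
    fun x h0 h1 => find N n cs 0 h x (by simpa using h0) h1.le
  have key0 : ∀ (w : ℕ → ℚ), IntegrableOn
      (fun x => (∑ k ∈ Finset.range (2 * n), (w k : ℝ) * rho cs k x) / x) (Ioo 0 1) ∧
      ∫ x in Ioo (0 : ℝ) 1, (∑ k ∈ Finset.range (2 * n), (w k : ℝ) * rho cs k x) / x =
        ((tot w 0 cs : ℚ) : ℝ) := by
    intro w
    obtain ⟨h1, h2⟩ := tot_spec N n w cs 0 h
    simp only [Rat.cast_zero] at h1 h2
    constructor
    · refine IntegrableOn.congr_fun (h1.mono_set Ioo_subset_Ioc_self) (fun x hx => ?_) measurableSet_Ioo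
      exact (rho_div n (fun k => (w k : ℝ)) cs x hx.1 hx.2).symm
    · rw [← h2, integral_Ioc_eq_integral_Ioo]
      exact setIntegral_congr_fun measurableSet_Ioo
        (fun x hx => rho_div n (fun k => (w k : ℝ)) cs x hx.1 hx.2)
  have k0 := key0 (fun _ => 1)
  have k1 := key0 (fun k => (k : ℚ))
  simp only [Rat.cast_one, one_mul] at k0
  simp only [Rat.cast_natCast] at k1
  refine ⟨fun k x => ?_, fun k => rho_measurable cs k, ?_, fun k x hk => ?_, fun k x hk => ?_,
    fun k x hk1 hk2 h0 h1 => ?_, k0.1, k1.1, k0.2.le, k1.2.le⟩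
  · unfold rho
    split_ifs with hx
    · obtain ⟨lo, c, hc, h1, h2, h3⟩ := hf x hx.1 hx.2
      rw [h3 k]
      refine mul_nonneg hx.1.le ?_
      simp only [chkCell, Bool.and_eq_true, decide_eq_true_eq, List.all_eq_true, List.mem_range] at hc
      by_cases hk : k < 2 * n
      · exact ev_nonneg lo c.hi _ hc.1.1.1 (hc.2.1 k hk) x h1.le h2
      · rw [List.getD_eq_default _ _ (by omega)]
        simp [ev]
    · exact le_rfl
  · obtain ⟨C, hC, hb⟩ := sg_bdd cs
    refine ⟨C, fun k x => ?_⟩
    unfold rho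
    split_ifs with hx
    · have h1 := hb k x hx.1.le hx.2.le
      have h2 := le_abs_self (sg cs k x)
      have h3 := abs_nonneg (sg cs k x)
      nlinarith [hx.1, hx.2]
    · exact hC
  · unfold rho
    split_ifs with hx
    · obtain ⟨lo, c, hc, h1, h2, h3⟩ := hf x hx.1 hx.2
      simp only [chkCell, Bool.and_eq_true, decide_eq_true_eq] at hc
      rw [h3 k]
      have : c.s.getD k [] = [] := by
        rcases Nat.le_one_iff_eq_zero_or_eq_one.1 hk with rfl | rfl
        · exact hc.1.2.1
        · exact hc.1.2.2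
      rw [this]
      simp [ev]
    · rfl
  · unfold rho
    split_ifs with hx
    · obtain ⟨lo, c, hc, h1, h2, h3⟩ := hf x hx.1 hx.2
      simp only [chkCell, Bool.and_eq_true, decide_eq_true_eq] at hc
      rw [h3 k, List.getD_eq_default _ _ (by omega)]
      simp [ev]
    · rfl
  · obtain ⟨lo, c, hc, h3, h4, h5⟩ := hf x h0 h1
    simp only [chkCell, Bool.and_eq_true, decide_eq_true_eq, List.all_eq_true, List.mem_range] at hc
    have h6 := hc.2.2 (k - 1) (by omega)
    have h7 := ev_nonneg lo c.hi _ hc.1.1.1 h6 x h3.le h4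
    rw [show k - 1 + 1 = k by omega] at h7
    unfold rho
    rw [if_pos ⟨h0, h1⟩, if_pos ⟨h0, h1⟩, if_pos ⟨h0, h1⟩, h5 k, h5 (k + 1), h5 (k - 1), hν k x hk1 hk2]
    simp only [cpoly, ev_addL, ev_sm, ev] at h7
    push_cast at h7
    calc (0 : ℝ) ≤ _ := h7
      _ = _ := by ring

theorem nu_eq (n : ℕ) (N : List (List ℚ)) (ν : ℕ → ℝ → ℝ)
    (hν : ∀ s x : ℝ, pp n s * pp n (s * x) = ∑ k ∈ Finset.range (2 * n), ν k x * pp k s)
    (hN : ∀ s x : ℝ, pp n s * pp n (s * x) =
      ∑ k ∈ Finset.range (2 * n), ev (N.getD k []) x * pp k s) :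
    ∀ k x, 1 ≤ k → k < 2 * n → ν k x = ev (N.getD k []) x := by
  intro k x h1 h2
  have h0 : ∀ s : ℝ, ∑ k ∈ Finset.range (2 * n), (ν k x - ev (N.getD k []) x) * pp k s = 0 := by
    intro s
    have h4 := hν s x
    rw [hN s x] at h4
    simp only [sub_mul, Finset.sum_sub_distrib]
    linarith
  have h3 := indep_A2 (2 * n) (fun k => ν k x - ev (N.getD k []) x) h0 k h1 h2
  have h5 : ν k x - ev (N.getD k []) x = 0 := h3
  linarith

end Helper53.P4T
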