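import Pool.Agent.Helper53.P4T.Chk

/-!
# MP_3dd6d4_an, project P4: the table `n = 3`
-/

set_option autoImplicit false

noncomputable section

namespace Helper53.P4T

open Helper69.CR Helper71.P4

/-- the polynomials `ν_k`, `n = 3`. -/
def N3 : List (List ℚ) :=
  [[],
   [0, 0, 3],
   [0, 36/5, -60/7],
   [3, -408/35, 75/7],
   [0, 36/7, -44/7],
   [0, 0, 10/7]]

/-- certificate, `n = 3`. -/
def C3 : List Cell :=
  [⟨43/100, [[],
     [],
     [],
     [0, 0, 821/2000]]⟩,
   ⟨33/50, [[],
     [],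
     [],
     [-35181/5000, 137117/5000, -252979/10000]]⟩,
   ⟨83/100, [[],
     [],
     [],
     [641/625, -24701/10000, 186/125],
     [11567/10000, -8759/2500, 26543/10000]]⟩,
   ⟨23/25, [[],
     [],
     [17513/10000, -113889/10000, 559/50],
     [],
     [-52219/10000, 7979/1250, 3/2000]]⟩,
   ⟨1, [[],
     [],
     [-15421/2000, 91803/10000, 3/2500],
     [],
     [-26111/5000, 31919/5000, 11/10000]]⟩]

theorem chk3 : chkAll N3 3 0 C3 = true := by decide +kernel

theorem tot3 : tot (fun _ => 1) 0 C3 ≤ 309/1000 ∧ tot (fun k => (k : ℚ)) 0 C3 ≤ 229/250 := by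
  decide +kernel

theorem id3 (s x : ℝ) : pp 3 s * pp 3 (s * x) =
    ∑ k ∈ Finset.range (2 * 3), ev (N3.getD k []) x * pp k s := by
  simp only [pp, pc, N3, ev, Finset.sum_range_succ, Finset.sum_range_zero, List.getD_cons_zero,
    List.getD_cons_succ, Nat.factorial]
  norm_num
  ring

theorem num3 : TNum 3 (309/1000) (229/250) := by
  refine ⟨by norm_num, by norm_num, 2587/1000, by norm_num, by norm_num, ?_, ?_⟩
  · norm_num [Cn, Finset.prod_range_succ]
  · norm_num [Cn, Finset.prod_range_succ]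

end Helper53.P4T
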