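import Pool.Agent.Helper53.P4T.Chk

/-!
# MP_3dd6d4_an, project P4: the table `n = 4`
-/

set_option autoImplicit false

noncomputable section

namespace Helper53.P4T

open Helper69.CR Helper71.P4

/-- the polynomials `ν_k`, `n = 4`. -/
def N4 : List (List ℚ) :=
  [[],
   [0, 0, 0, 4],
   [0, 0, 108/7, -52/3],
   [0, 120/7, -352/7, 36],
   [4, -620/21, 460/7, -1388/33],
   [0, 40/3, -3040/77, 940/33],
   [0, 0, 100/11, -1500/143],
   [0, 0, 0, 700/429]]

/-- certificate, `n = 4`. -/
def C4 : List Cell :=
  [⟨27/100, [[],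
     [],
     [],
     [],
     [0, 0, 4579/10000]]⟩,
   ⟨39/100, [[],
     [],
     [],
     [],
     [-105187/10000, 33073/500, -50093/500]]⟩,
   ⟨14/25, [[],
     [],
     [],
     [],
     [1071/2500, -15283/10000, 6823/5000]]⟩,
   ⟨13/20, [[],
     [],
     [],
     [-31079/10000, 35189/5000, -13277/5000],
     [],
     [-10561/2000, 36739/2500, -94021/10000]]⟩,
   ⟨4/5, [[],
     [],
     [],
     [-22053/1250, 517591/10000, -370563/10000],
     [],
     [-16831/1250, 398779/10000, -287731/10000]]⟩,
   ⟨89/100, [[],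
     [],
     [],
     [23641/5000, -106241/10000, 29843/5000],
     [],
     [21767/10000, -6113/1250, 13737/5000],
     [6969/400, -435551/10000, 272219/10000]]⟩,
   ⟨1, [[],
     [],
     [109/2000, -166353/10000, 186233/10000],
     [],
     [289771/10000, -384589/5000, 249213/5000],
     [],
     [9/2500, -45791/5000, 21129/2000]]⟩]

theorem chk4 : chkAll N4 4 0 C4 = true := by decide +kernel

theorem tot4 : tot (fun _ => 1) 0 C4 ≤ 459/1000 ∧ tot (fun k => (k : ℚ)) 0 C4 ≤ 224/125 := by
  decide +kernel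

theorem id4 (s x : ℝ) : pp 4 s * pp 4 (s * x) =
    ∑ k ∈ Finset.range (2 * 4), ev (N4.getD k []) x * pp k s := by
  simp only [pp, pc, N4, ev, Finset.sum_range_succ, Finset.sum_range_zero, List.getD_cons_zero,
    List.getD_cons_succ, Nat.factorial]
  norm_num
  ring

theorem num4 : TNum 4 (459/1000) (224/125) := by
  refine ⟨by norm_num, by norm_num, 2137/500, by norm_num, by norm_num, ?_, ?_⟩
  · norm_num [Cn, Finset.prod_range_succ]
  · norm_num [Cn, Finset.prod_range_succ]

end Helper53.P4T
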