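import Pool.Agent.Helper53.P4T.Chk

/-!
# MP_3dd6d4_an, project P4: the table `n = 5`
-/

set_option autoImplicit false

noncomputable section

namespace Helper53.P4T

open Helper69.CR Helper71.P4

/-- the polynomials `ν_k`, `n = 5`. -/
def N5 : List (List ℚ) :=
  [[],
   [0, 0, 0, 0, 5],
   [0, 0, 0, 80/3, -320/11],
   [0, 0, 50, -1440/11, 930/11],
   [0, 100/3, -1900/11, 9400/33, -21160/143],
   [5, -1960/33, 2555/11, -146480/429, 23840/143],
   [0, 300/11, -20300/143, 33600/143, -17520/143],
   [0, 0, 4725/143, -37520/429, 8155/143],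
   [0, 0, 0, 1960/143, -37240/2431],
   [0, 0, 0, 0, 4410/2431]]

/-- certificate, `n = 5`. -/
def C5 : List Cell :=
  [⟨1/5, [[],
     [],
     [],
     [],
     [],
     [0, 0, 0, 83339/2500]]⟩,
   ⟨13/50, [[],
     [],
     [],
     [],
     [],
     [-347597/10000, 4328581/10000, -17480729/10000, 183827/80]]⟩,
   ⟨2/5, []⟩,
   ⟨11/25, [[],
     [],
     [],
     [],
     [-604731/10000, 93833/200, -605973/500, 2606207/2500],
     [],
     [395171/10000, -159826/625, 2688357/5000, -454207/1250]]⟩,
   ⟨14/25, [[],
     [],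
     [],
     [],
     [-338627/10000, 109682/625, -57883/200, 93966/625],
     [],
     [-137283/5000, 1429359/10000, -1182961/5000, 1233673/10000]]⟩,
   ⟨67/100, [[],
     [],
     [],
     [],
     [61419/5000, -55, 164179/2000, -204203/5000],
     [],
     [64353/5000, -576273/10000, 860109/10000, -85583/2000]]⟩,
   ⟨37/50, [[],
     [],
     [],
     [19649/100, -8480383/10000, 3027993/2500, -714891/1250],
     [],
     [-1558079/10000, 1395299/2000, -10412679/10000, 5180437/10000],
     [],
     [83393/2500, -1684311/10000, 676583/2500, -698143/5000]]⟩,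
   ⟨43/50, [[],
     [],
     [],
     [11/2000, -257399/5000, 1347669/10000, -108793/1250],
     [],
     [86519/2500, -467129/2500, 610057/2000, -779727/5000],
     [],
     [-21691/10000, -62039/2500, 770867/10000, -526719/10000]]⟩,
   ⟨93/100, [[],
     [],
     [-6686761/10000, 23325927/10000, -27123171/10000, 10512857/10000],
     [1107633/10000, -3572993/10000, 480241/1250, -275407/2000],
     [],
     [-500841/5000, 995861/2500, -2546043/5000, 2115017/10000],
     [-708349/5000, 2470993/5000, -1149299/2000, 556831/2500],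
     [],
     [-521033/10000, 2534991/10000, -3781867/10000, 71567/400]]⟩,
   ⟨1, [[],
     [],
     [49/10000, -67/10000, -71417/2500, 77919/2500],
     [],
     [81707/1000, -1712131/10000, 114563/2000, 347843/10000],
     [],
     [-274603/10000, 1429517/10000, -2366157/10000, 1233793/10000],
     [],
     [1/200, -19/2500, -68773/5000, 9611/625]]⟩]

theorem chk5 : chkAll N5 5 0 C5 = true := by decide +kernel

theorem tot5 : tot (fun _ => 1) 0 C5 ≤ 153/250 ∧ tot (fun k => (k : ℚ)) 0 C5 ≤ 2937/1000 := by
  decide +kernel

theorem id5 (s x : ℝ) : pp 5 s * pp 5 (s * x) =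
    ∑ k ∈ Finset.range (2 * 5), ev (N5.getD k []) x * pp k s := by
  simp only [pp, pc, N5, ev, Finset.sum_range_succ, Finset.sum_range_zero, List.getD_cons_zero,
    List.getD_cons_succ, Nat.factorial]
  norm_num
  ring

theorem num5 : TNum 5 (153/250) (2937/1000) := by
  refine ⟨by norm_num, by norm_num, 1237/200, by norm_num, by norm_num, ?_, ?_⟩
  · norm_num [Cn, Finset.prod_range_succ]
  · norm_num [Cn, Finset.prod_range_succ]

end Helper53.P4T
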