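import Pool.Agent.Helper53.P4T.T3
import Pool.Agent.Helper53.P4T.T4
import Pool.Agent.Helper53.P4T.T5
import Pool.Agent.Helper53.P4T.T6
import Pool.Agent.Helper53.P4T.T7

/-!
# MP_3dd6d4_an, project P4: the tables `3 ≤ n ≤ 7` (module TB)
-/

set_option autoImplicit false

open MeasureTheory Set

noncomputable section

namespace Helper53.P4T

open Helper69.CR Helper71.P4

theorem Tab_mono {n : ℕ} {ν ρ : ℕ → ℝ → ℝ} {M M1 M' M1' : ℝ} (h : Tab n ν ρ M M1) (h1 : M ≤ M')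
    (h2 : M1 ≤ M1') : Tab n ν ρ M' M1' :=
  ⟨h.nonneg, h.meas, h.bdd, h.low, h.high, h.pos, h.int0, h.int1, h.le0.trans h1, h.le1.trans h2⟩

theorem tab_cert (n : ℕ) (hn : 1 ≤ n) (N : List (List ℚ)) (cs : List Cell) (M M1 : ℚ)
    (hid : ∀ s x : ℝ, pp n s * pp n (s * x) =
      ∑ k ∈ Finset.range (2 * n), ev (N.getD k []) x * pp k s)
    (hc : chkAll N n 0 cs = true)
    (ht : tot (fun _ => 1) 0 cs ≤ M ∧ tot (fun k => (k : ℚ)) 0 cs ≤ M1)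
    (ν : ℕ → ℝ → ℝ) (hν : NN n ν) : Tab n ν (rho cs) (M : ℝ) (M1 : ℝ) := by
  refine Tab_mono (tab_of n hn N cs ν (nu_eq n N ν hν.exp hid) hc) ?_ ?_
  · exact_mod_cast ht.1
  · exact_mod_cast ht.2

/-- the tables; `ρ` does not depend on `ν`. -/
theorem tabs (n : ℕ) (h3 : 3 ≤ n) (h7 : n ≤ 7) : ∃ (ρ : ℕ → ℝ → ℝ) (M M1 : ℝ), TNum n M M1 ∧
    ∀ ν : ℕ → ℝ → ℝ, NN n ν → Tab n ν ρ M M1 := by
  obtain rfl | rfl | rfl | rfl | rfl : n = 3 ∨ n = 4 ∨ n = 5 ∨ n = 6 ∨ n = 7 := by omega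
  · refine ⟨rho C3, ((309 / 1000 : ℚ) : ℝ), ((229 / 250 : ℚ) : ℝ), ?_, fun ν hν =>
      tab_cert 3 (by norm_num) N3 C3 _ _ id3 chk3 tot3 ν hν⟩
    have := num3
    norm_num at this ⊢
    exact this
  · refine ⟨rho C4, ((459 / 1000 : ℚ) : ℝ), ((224 / 125 : ℚ) : ℝ), ?_, fun ν hν =>
      tab_cert 4 (by norm_num) N4 C4 _ _ id4 chk4 tot4 ν hν⟩
    have := num4
    norm_num at this ⊢
    exact this
  · refine ⟨rho C5, ((153 / 250 : ℚ) : ℝ), ((2937 / 1000 : ℚ) : ℝ), ?_, fun ν hν =>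
      tab_cert 5 (by norm_num) N5 C5 _ _ id5 chk5 tot5 ν hν⟩
    have := num5
    norm_num at this ⊢
    exact this
  · refine ⟨rho C6, ((773 / 1000 : ℚ) : ℝ), ((1103 / 250 : ℚ) : ℝ), ?_, fun ν hν =>
      tab_cert 6 (by norm_num) N6 C6 _ _ id6 chk6 tot6 ν hν⟩
    have := num6
    norm_num at this ⊢
    exact this
  · refine ⟨rho C7, ((37 / 40 : ℚ) : ℝ), ((6127 / 1000 : ℚ) : ℝ), ?_, fun ν hν =>
      tab_cert 7 (by norm_num) N7 C7 _ _ id7 chk7 tot7 ν hν⟩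
    have := num7
    norm_num at this ⊢
    exact this

/-- module TB. -/
theorem hTB : StTB := by
  intro n h3 h7
  obtain ⟨ρ, M, M1, h1, h2⟩ := tabs n h3 h7
  exact ⟨M, M1, h1, fun ν hν => ⟨ρ, h2 ν hν⟩⟩

end Helper53.P4T
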