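import Pool.Agent.Helper53.P4T.Top
import Pool.Agent.Helper69.CS.St

/-!
# MP_3dd6d4_an, project P4/CS: the tables `3 ≤ n ≤ 7` in the format of `Helper69.CS.TD`
-/

set_option autoImplicit false

open MeasureTheory Set

noncomputable section

namespace Helper53.P4T

open Helper69.CR Helper71.P4

theorem TD_of_Tab {n : ℕ} {ν ρ : ℕ → ℝ → ℝ} {M M1 : ℝ} (hn : NN n ν) (h : Tab n ν ρ M M1) (P : ℕ → ℝ)
    (hP : ∀ k, 2 ≤ k → ∫ s in (0 : ℝ)..1, |pp k s| ≤ P k) : Helper69.CS.TD n ν ρ P := by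
  refine ⟨hn, fun k x _ _ => h.nonneg k x, h.meas, ?_, fun k x hk => ?_, fun k h1 h2 x h3 h4 =>
    h.pos k x h1 h2 h3 h4, hP⟩
  · obtain ⟨C, hC⟩ := h.bdd
    exact ⟨C, fun k x _ _ => hC k x⟩
  · rcases hk with hk | hk
    · exact h.low k x hk
    · exact h.high k x (by omega)

theorem int_of_Tab {n : ℕ} {ν ρ : ℕ → ℝ → ℝ} {M M1 : ℝ} (h : Tab n ν ρ M M1) :
    (∀ k, IntegrableOn (fun x => ρ k x / x) (Ioo 0 1)) ∧
    ∑ k ∈ Finset.range (2 * n), (∫ x in Ioo (0 : ℝ) 1, ρ k x / x) ≤ M ∧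
    ∑ k ∈ Finset.range (2 * n), (k : ℝ) * (∫ x in Ioo (0 : ℝ) 1, ρ k x / x) ≤ M1 := by
  have hI : ∀ k, IntegrableOn (fun x => ρ k x / x) (Ioo 0 1) := by
    intro k
    by_cases hk : k < 2 * n
    · refine Integrable.mono' h.int0 ((h.meas k).div measurable_id).aestronglyMeasurable ?_
      refine (ae_restrict_iff' measurableSet_Ioo).2 (Filter.Eventually.of_forall fun x hx => ?_)
      have h0 : 0 ≤ ρ k x / x := div_nonneg (h.nonneg k x) hx.1.le
      rw [Real.norm_of_nonneg h0]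
      refine div_le_div_of_nonneg_right ?_ hx.1.le
      exact Finset.single_le_sum (f := fun k => ρ k x) (fun i _ => h.nonneg i x) (Finset.mem_range.2 hk)
    · have : (fun x => ρ k x / x) = fun _ => 0 := by
        funext x
        rw [h.high k x (by omega), zero_div]
      rw [this]
      exact integrableOn_zero
  refine ⟨hI, ?_, ?_⟩
  · rw [← integral_finsetSum _ (fun k _ => hI k)]
    refine le_trans (le_of_eq ?_) h.le0
    refine setIntegral_congr_fun measurableSet_Ioo fun x _ => ?_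
    simp only [Finset.sum_div]
  · refine le_trans (le_of_eq ?_) h.le1
    simp only [← integral_const_mul]
    rw [← integral_finsetSum _ (fun k _ => (hI k).const_mul (k : ℝ))]
    refine setIntegral_congr_fun measurableSet_Ioo fun x _ => ?_
    simp only [Finset.sum_div, mul_div_assoc]

/-- the tables in the format of `Helper69.CS.TD`. -/
theorem tabTD (n : ℕ) (h3 : 3 ≤ n) (h7 : n ≤ 7) (ν : ℕ → ℝ → ℝ) (hν : NN n ν) :
    ∃ (ρ : ℕ → ℝ → ℝ) (M M1 : ℝ), TNum n M M1 ∧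
      (∀ P : ℕ → ℝ, (∀ k, 2 ≤ k → ∫ s in (0 : ℝ)..1, |pp k s| ≤ P k) → Helper69.CS.TD n ν ρ P) ∧
      (∀ k x, 0 ≤ ρ k x) ∧
      (∀ k, IntegrableOn (fun x => ρ k x / x) (Ioo 0 1)) ∧
      ∑ k ∈ Finset.range (2 * n), (∫ x in Ioo (0 : ℝ) 1, ρ k x / x) ≤ M ∧
      ∑ k ∈ Finset.range (2 * n), (k : ℝ) * (∫ x in Ioo (0 : ℝ) 1, ρ k x / x) ≤ M1 := by
  obtain ⟨ρ, M, M1, h1, h2⟩ := tabs n h3 h7
  have h4 := h2 ν hν
  have h5 := int_of_Tab h4
  exact ⟨ρ, M, M1, h1, fun P hP => TD_of_Tab hν h4 P hP, h4.nonneg, h5.1, h5.2.1, h5.2.2⟩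

end Helper53.P4T
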